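import Pool.Agent.Helper23.CM.Conc
import Pool.Agent.Helper25.FP.MON

/-!
MP_b440f6_pr, campaign CM, packet MONM: the chain sum with marks increases with `n`.
-/

set_option autoImplicit false

open scoped ENNReal
open Finset

namespace Pool.Agent.Helper25.CM

open Pool.Agent.Helper92.Eps
open Pool.Agent.Helper92.Poly (gsh)
open Pool.Agent.Helper96.KP (Good DG DG')
open Pool.Agent.Helper23.KP (AP)
open Pool.Agent.Helper22.FP (rb1)
open Pool.Agent.Helper99.ZZ (sl)
open Pool.Agent.Helper23.CM
open Pool.Agent.Helper25.FP (iv_le H_eq W_eq fpp_eq none_rbl cor_mono)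

/-- Packet MONM. -/
theorem MONM_ : MONM_stmt := by
  intro n n' J A A' hn hG hG' N ds
  unfold ZMc
  induction ds with
  | nil => intro hist r m l _; simp [ZM]
  | cons d ds ih =>
    intro hist r m l hl
    simp only [ZM]
    refine ENNReal.tsum_le_tsum fun l' => ?_
    by_cases hl' : none ∉ l'
    · have h1 : none ∉ Pool.Agent.Helper99.ZZ.rbl rb1 l := none_rbl hl
      have e1 : sl A r (Pool.Agent.Helper99.ZZ.rbl rb1 l) =
          sl A' r (Pool.Agent.Helper99.ZZ.rbl rb1 l) := by
        unfold sl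
        rw [fpp_eq hG.isAA hG'.isAA _ h1]
      have e2 : sl A r l' = sl A' r l' := by
        unfold sl
        rw [fpp_eq hG.isAA hG'.isAA _ hl']
      have e3 : trk A (Pool.Agent.Helper99.ZZ.rbl rb1) r l =
          trk A' (Pool.Agent.Helper99.ZZ.rbl rb1) r l := by
        unfold trk
        rw [e1]
      rw [W_eq hG.isAA hG'.isAA l' hl', e1, e2, e3]
      refine iv_le ?_ fun _ => mul_le_mul_right (ih _ _ _ _ hl') _
      rintro ⟨⟨a, b, c⟩, h, h'⟩
      rw [H_eq hG.isAA hG'.isAA l' hl'] at b c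
      exact ⟨⟨a, b, c⟩, cor_mono hn hG.isAA hG'.isAA hl hl' h, h'⟩
    · unfold iv
      rw [if_neg fun h => hl' h.1.1]
      exact zero_le

end Pool.Agent.Helper25.CM
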